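import Mathlib

set_option autoImplicit false

open Set

namespace Q67.FS

/-- `U` is a nonempty open set. -/
def Opene {X : Type*} [TopologicalSpace X] (U : Set X) : Prop := IsOpen U ∧ U.Nonempty

/-- `N_T(U,V) = {n : Tⁿ U ∩ V ≠ ∅}`. -/
def NT {X : Type*} (T : X → X) (U V : Set X) : Set ℕ := {n | (T^[n] '' U ∩ V).Nonempty}

/-- `(X,T)` is transitive: every `N_T(U,V)` with `U`, `V` nonempty open is nonempty. -/
def Transitive {X : Type*} [TopologicalSpace X] (T : X → X) : Prop :=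
  ∀ U V : Set X, Opene U → Opene V → (NT T U V).Nonempty

/-- `(X,T)` is weakly mixing: `(X × X, T × T)` is transitive. -/
def WeaklyMixing {X : Type*} [TopologicalSpace X] (T : X → X) : Prop :=
  Transitive (Prod.map T T)

/-- `S_T(U,δ) = {n : there are x, y ∈ U with d(Tⁿ x, Tⁿ y) > δ}`. -/
def ST {X : Type*} [MetricSpace X] (T : X → X) (U : Set X) (δ : ℝ) : Set ℕ :=
  {n | ∃ x ∈ U, ∃ y ∈ U, dist (T^[n] x) (T^[n] y) > δ}

/-- The family of all sets containing some `S_T(U,δ)` with `U` nonempty open. -/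
def SFam {X : Type*} [MetricSpace X] (T : X → X) (δ : ℝ) : Set (Set ℕ) :=
  {A | ∃ U : Set X, Opene U ∧ ST T U δ ⊆ A}

/-- A family of subsets of `ℕ` is a filter: it is neither empty nor the whole power set, and it is
closed under intersections of two members. -/
def IsFilterFamily (F : Set (Set ℕ)) : Prop :=
  (F ≠ ∅ ∧ F ≠ univ) ∧ ∀ A ∈ F, ∀ B ∈ F, A ∩ B ∈ F

/-- `(X,T)` is filter-sensitive. -/
def FilterSensitive {X : Type*} [MetricSpace X] (T : X → X) : Prop :=
  ∃ δ : ℝ, 0 < δ ∧ IsFilterFamily (SFam T δ)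

/-- `A` contains arbitrarily long intervals of consecutive integers. -/
def Thick (A : Set ℕ) : Prop := ∀ l : ℕ, ∃ a : ℕ, ∀ i < l, a + i ∈ A

/-- `(X,T)` is thickly sensitive. -/
def ThicklySensitive {X : Type*} [MetricSpace X] (T : X → X) : Prop :=
  ∃ δ : ℝ, 0 < δ ∧ ∀ U : Set X, Opene U → Thick (ST T U δ)

end Q67.FS
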