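import Mathlib
import Pool.Agent.Q67.FS.Defs

set_option autoImplicit false

open Set

namespace Q67.FS

attribute [local instance] PiNat.metricSpace

/-- type of block `j` -/
def τ (j : ℕ) : ℕ := (Nat.unpair j).1

theorem τ_le (j : ℕ) : τ j ≤ j := Nat.unpair_left_le j

theorem exists_type (N m : ℕ) : ∃ j, m ≤ j ∧ τ j = N :=
  ⟨Nat.pair N m, Nat.right_le_pair N m, by simp [τ]⟩

/-- forbidden differences in component `L` -/
def Q (L d : ℕ) : Prop := d = 1 ∨ ∃ j i, L ≤ τ j ∧ i ≤ τ j - L ∧ d = 4 ^ (j + 2) + i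

theorem Q_bound {L d : ℕ} (h : Q L d) : d = 1 ∨ ∃ j, 4 ^ (j + 2) ≤ d ∧ d ≤ 4 ^ (j + 2) + j := by
  rcases h with h | ⟨j, i, _, hi, h⟩
  · exact Or.inl h
  · exact Or.inr ⟨j, by omega, by have := τ_le j; omega⟩

theorem four_mono {i j : ℕ} (h : i ≤ j) : 4 ^ i ≤ 4 ^ j := Nat.pow_le_pow_right (by norm_num) h

theorem lt_four (j : ℕ) : j < 4 ^ j := Nat.lt_pow_self (by norm_num)

/-- middle of gaps -/
theorem not_Q_gap {L d j : ℕ} (h1 : 4 ^ (j + 2) + j < d) (h2 : d < 4 ^ (j + 3)) : ¬ Q L d := by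
  intro h
  have hpos : 0 < 4 ^ (j + 2) := by positivity
  rcases Q_bound h with h | ⟨k, h3, h4⟩
  · omega
  · rcases lt_trichotomy k j with hk | hk | hk
    · have := four_mono (show k + 2 ≤ j + 2 by omega)
      have := four_mono (show k + 3 ≤ j + 2 by omega)
      have := lt_four k
      have e : 4 ^ (k + 3) = 64 * 4 ^ k := by ring
      have e2 : 4 ^ (k + 2) = 16 * 4 ^ k := by ring
      omega
    · subst hk; omega
    · have := four_mono (show j + 3 ≤ k + 2 by omega)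
      omega

/-- below a block -/
theorem not_Q_below {L d j : ℕ} (h1 : 4 ^ (j + 2) < d + j) (h2 : d < 4 ^ (j + 2)) : ¬ Q L d := by
  have hj := lt_four j
  have e2 : 4 ^ (j + 2) = 16 * 4 ^ j := by ring
  intro h
  rcases Q_bound h with h | ⟨k, h3, h4⟩
  · omega
  · rcases lt_or_ge k j with hk | hk
    · have := four_mono (show k + 3 ≤ j + 2 by omega)
      have := lt_four k
      have e : 4 ^ (k + 3) = 64 * 4 ^ k := by ring
      have e2 : 4 ^ (k + 2) = 16 * 4 ^ k := by ring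
      omega
    · have := four_mono (show j + 2 ≤ k + 2 by omega)
      omega

/-- just above the single point block -/
theorem not_Q_above {j : ℕ} : ¬ Q (τ j) (4 ^ (j + 2) + 1) := by
  have hj := lt_four j
  have e2 : 4 ^ (j + 2) = 16 * 4 ^ j := by ring
  rintro (h | ⟨k, i, h1, h2, h3⟩)
  · omega
  · rcases lt_trichotomy k j with hk | hk | hk
    · have := four_mono (show k + 3 ≤ j + 2 by omega)
      have := lt_four k
      have := τ_le k
      have e : 4 ^ (k + 3) = 64 * 4 ^ k := by ring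
      have e2 : 4 ^ (k + 2) = 16 * 4 ^ k := by ring
      omega
    · subst hk; omega
    · have := four_mono (show j + 3 ≤ k + 2 by omega)
      have e : 4 ^ (j + 3) = 64 * 4 ^ j := by ring
      omega

/-- the ambient space -/
abbrev Z : Type := ∀ n : ℕ, (Fin (n + 1) → Bool)

/-- the coordinate `(L, i)` -/
def c (z : Z) (L i : ℕ) : Bool := z (L + i) ⟨L, by omega⟩

theorem lev (z : Z) (n L : ℕ) (h : L < n + 1) : z n ⟨L, h⟩ = c z L (n - L) := by
  obtain ⟨i, rfl⟩ := Nat.exists_eq_add_of_le (Nat.lt_succ_iff.1 h)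
  have key : ∀ k, k = i → z (L + i) ⟨L, h⟩ = c z L k := by
    rintro k rfl; rfl
  exact key _ (by omega)

/-- points from their coordinates -/
def mk (x : ℕ → ℕ → Bool) : Z := fun n L => x L (n - L)

theorem c_mk (x : ℕ → ℕ → Bool) (L i : ℕ) : c (mk x) L i = x L i := by
  simp [c, mk]

theorem level_eq_iff (z w : Z) (N : ℕ) : (∀ s < N + 1, z s = w s) ↔
    ∀ L i, L + i ≤ N → c z L i = c w L i := by
  constructor
  · intro h L i hLi
    simp only [c]
    rw [h (L + i) (by omega)]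
  · intro h s hs
    funext ⟨L, hL⟩
    rw [lev z s L hL, lev w s L hL]
    exact h _ _ (by omega)

/-- the admissible points -/
def Adm : Set Z := {z | ∀ L i j, i < j → c z L i = true → c z L j = true → ¬ Q L (j - i)}

theorem c_cont (L i : ℕ) : Continuous fun z : Z => c z L i :=
  (continuous_apply (⟨L, by omega⟩ : Fin (L + i + 1))).comp (continuous_apply (L + i))

theorem Adm_closed : IsClosed Adm := by
  have h : Adm = ⋂ (L : ℕ) (i : ℕ) (j : ℕ) (_ : i < j) (_ : Q L (j - i)),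
      {z : Z | (c z L i && c z L j) = false} := by
    ext z
    simp only [Adm, mem_ofPred_eq, mem_iInter]
    constructor
    · intro h L i j hij hQ
      by_contra hcon
      rw [Bool.not_eq_false, Bool.and_eq_true] at hcon
      exact h L i j hij hcon.1 hcon.2 hQ
    · intro h L i j hij h1 h2 hQ
      have := h L i j hij hQ
      rw [h1, h2] at this
      simp at this
  rw [h]
  refine isClosed_iInter fun L => isClosed_iInter fun i => isClosed_iInter fun j =>
    isClosed_iInter fun _ => isClosed_iInter fun _ => ?_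
  have h1 : Continuous fun z : Z => (c z L i && c z L j) := by
    have : Continuous fun p : Bool × Bool => (p.1 && p.2) := continuous_of_discreteTopology
    exact this.comp ((c_cont L i).prodMk (c_cont L j))
  exact isClosed_singleton.preimage h1

/-- the space -/
abbrev X : Type := Adm

instance : CompactSpace X := isCompact_iff_compactSpace.1 Adm_closed.isCompact

/-- the shift on the ambient space -/
def sh (z : Z) : Z := fun n L => z (n + 1) L.castSucc

theorem c_sh (z : Z) (L i : ℕ) : c (sh z) L i = c z L (i + 1) := rfl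

theorem sh_cont : Continuous sh := by
  refine continuous_pi fun n => continuous_pi fun L => ?_
  exact (continuous_apply (L.castSucc : Fin (n + 1 + 1))).comp (continuous_apply (n + 1))

/-- the map `T` -/
def T (x : X) : X := ⟨sh x.1, fun L i j hij h1 h2 => by
  rw [c_sh] at h1 h2
  have := x.2 L (i + 1) (j + 1) (by omega) h1 h2
  rwa [Nat.add_sub_add_right] at this⟩

theorem T_cont : Continuous T := (sh_cont.comp continuous_subtype_val).subtype_mk _

theorem c_T (n : ℕ) (x : X) (L i : ℕ) : c (T^[n] x).1 L i = c x.1 L (i + n) := by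
  induction n generalizing x with
  | zero => rfl
  | succ n ih =>
    rw [Function.iterate_succ_apply, ih]
    change c (sh x.1) L (i + n) = _
    rw [c_sh]; rfl

/-- prepending zeros -/
def prep (x : X) (L i : ℕ) : Bool := if i = 0 then false else c x.1 L (i - 1)

theorem T_surj : Function.Surjective T := by
  intro x
  refine ⟨⟨mk (prep x), ?_⟩, ?_⟩
  · intro L i j hij h1 h2
    rw [c_mk, prep] at h1 h2
    by_cases hi : i = 0
    · simp [hi] at h1
    · rw [if_neg hi] at h1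
      rw [if_neg (by omega)] at h2
      have := x.2 L (i - 1) (j - 1) (by omega) h1 h2
      rwa [show j - 1 - (i - 1) = j - i by omega] at this
  · apply Subtype.ext
    funext n
    funext ⟨L, hL⟩
    change sh (mk (prep x)) n ⟨L, hL⟩ = x.1 n ⟨L, hL⟩
    rw [lev (sh (mk (prep x))) n L hL, lev x.1 n L hL, c_sh, c_mk, prep, if_neg (by omega), Nat.add_sub_cancel]

theorem dist_gt_iff {N : ℕ} {δ : ℝ} (h1 : (1 / 2 : ℝ) ^ (N + 1) ≤ δ) (h2 : δ < (1 / 2 : ℝ) ^ N)
    (x y : X) : dist x y > δ ↔ ∃ L i, L + i ≤ N ∧ c x.1 L i ≠ c y.1 L i := by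
  change dist x.1 y.1 > δ ↔ _
  constructor
  · intro h
    by_contra hcon
    push Not at hcon
    have h3 := (level_eq_iff x.1 y.1 N).2 hcon
    have h4 : x.1 ∈ PiNat.cylinder y.1 (N + 1) := PiNat.mem_cylinder_iff.2 h3
    rw [PiNat.mem_cylinder_iff_dist_le] at h4
    have : dist x.1 y.1 ≤ (1 / 2) ^ (N + 1) := h4
    linarith
  · rintro ⟨L, i, hLi, hne⟩
    by_contra hcon
    push Not at hcon
    have h3 : dist x.1 y.1 < (1 / 2) ^ N := hcon.trans_lt h2
    have h4 : x.1 (L + i) = y.1 (L + i) := PiNat.apply_eq_of_dist_lt h3 hLi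
    apply hne
    simp only [c]
    rw [h4]

/-- basic open sets -/
def Cyl (w : X) (m : ℕ) : Set X := {x | ∀ L i, L + i < m → c x.1 L i = c w.1 L i}

theorem exists_Cyl {U : Set X} (hU : IsOpen U) {w : X} (hw : w ∈ U) : ∃ m, Cyl w m ⊆ U := by
  rw [Metric.isOpen_iff] at hU
  obtain ⟨ε, hε, h⟩ := hU w hw
  obtain ⟨m, hm⟩ := exists_pow_lt_of_lt_one hε (show (1 / 2 : ℝ) < 1 by norm_num)
  refine ⟨m + 1, fun x hx => h ?_⟩
  rw [Metric.mem_ball]
  have h3 := (level_eq_iff x.1 w.1 m).2 fun L i hLi => hx L i (by omega)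
  have h4 : x.1 ∈ PiNat.cylinder w.1 m := PiNat.mem_cylinder_iff.2 fun i hi => h3 i (by omega)
  rw [PiNat.mem_cylinder_iff_dist_le] at h4
  have : dist x.1 w.1 ≤ (1 / 2) ^ m := h4
  exact lt_of_le_of_lt this hm

theorem isOpen_c (L i : ℕ) (b : Bool) : IsOpen {x : X | c x.1 L i = b} :=
  (isOpen_discrete {b}).preimage ((c_cont L i).comp continuous_subtype_val)

/-- Gluing a word of one point with a shifted word of another one. -/
theorem glue (x y : X) (m n : ℕ) (hm : m ≤ n)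
    (hgap : ∀ L d, n < d + m → d < n + m → ¬ Q L d) :
    ∃ z ∈ Cyl x m, T^[n] z ∈ Cyl y m := by
  refine ⟨⟨mk fun L i => if L + i < m then c x.1 L i else
    if n ≤ i ∧ L + (i - n) < m then c y.1 L (i - n) else false, ?_⟩, ?_, ?_⟩
  · intro L i j hij h1 h2
    rw [c_mk] at h1 h2
    by_cases hi : L + i < m
    · rw [if_pos hi] at h1
      by_cases hj : L + j < m
      · rw [if_pos hj] at h2
        exact x.2 L i j hij h1 h2
      · rw [if_neg hj] at h2
        split_ifs at h2 with hj'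
        · exact hgap L (j - i) (by omega) (by omega)
    · rw [if_neg hi] at h1
      rw [if_neg (by omega)] at h2
      split_ifs at h1 h2 with hi' hj'
      · have := y.2 L (i - n) (j - n) (by omega) h1 h2
        rwa [show j - n - (i - n) = j - i by omega] at this
  · intro L i hLi
    rw [c_mk, if_pos hLi]
  · intro L i hLi
    rw [c_T, c_mk, if_neg (by omega), if_pos (by omega), Nat.add_sub_cancel]

theorem exists_gap (m : ℕ) : ∃ n, m ≤ n ∧ ∀ L d, n < d + m → d < n + m → ¬ Q L d := by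
  have h1 := lt_four m
  have e2 : 4 ^ (m + 2) = 16 * 4 ^ m := by ring
  have e3 : 4 ^ (m + 3) = 64 * 4 ^ m := by ring
  refine ⟨2 * 4 ^ (m + 2), by omega, fun L d h2 h3 => not_Q_gap (j := m) (by omega) (by omega)⟩

theorem T_wm : WeaklyMixing T := by
  rintro U V ⟨hU, ⟨u, hu⟩⟩ ⟨hV, ⟨v, hv⟩⟩
  obtain ⟨U1, U2, hU1, hU2, hu1, hu2, hUU⟩ := isOpen_prod_iff.1 hU u.1 u.2 hu
  obtain ⟨V1, V2, hV1, hV2, hv1, hv2, hVV⟩ := isOpen_prod_iff.1 hV v.1 v.2 hv
  obtain ⟨m1, hm1⟩ := exists_Cyl hU1 hu1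
  obtain ⟨m2, hm2⟩ := exists_Cyl hU2 hu2
  obtain ⟨m3, hm3⟩ := exists_Cyl hV1 hv1
  obtain ⟨m4, hm4⟩ := exists_Cyl hV2 hv2
  obtain ⟨n, hmn, hgap⟩ := exists_gap (m1 + m2 + m3 + m4)
  have mono : ∀ (w : X) (k l : ℕ), k ≤ l → Cyl w l ⊆ Cyl w k := fun w k l hkl x hx L i hLi =>
    hx L i (by omega)
  obtain ⟨z1, hz1, hz1'⟩ := glue u.1 v.1 (m1 + m2 + m3 + m4) n hmn hgap
  obtain ⟨z2, hz2, hz2'⟩ := glue u.2 v.2 (m1 + m2 + m3 + m4) n hmn hgap
  refine ⟨n, (T^[n] z1, T^[n] z2), ⟨(z1, z2), hUU ⟨hm1 (mono _ _ _ (by omega) hz1),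
    hm2 (mono _ _ _ (by omega) hz2)⟩, ?_⟩, hVV ⟨hm3 (mono _ _ _ (by omega) hz1'),
    hm4 (mono _ _ _ (by omega) hz2')⟩⟩
  rw [Prod.map_iterate]; rfl

theorem T_trans : Transitive T := by
  intro U V hU hV
  obtain ⟨n, w, ⟨z, hz, rfl⟩, hw⟩ := T_wm (U ×ˢ U) (V ×ˢ V) ⟨hU.1.prod hU.1, hU.2.prod hU.2⟩
    ⟨hV.1.prod hV.1, hV.2.prod hV.2⟩
  rw [Prod.map_iterate] at hw
  exact ⟨n, T^[n] z.1, ⟨z.1, hz.1, rfl⟩, hw.1⟩

/-- A finite word of `w` with an additional letter -/
def addw (w : X) (m N n : ℕ) (b : Bool) (L i : ℕ) : Bool :=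
  if L + i < m then c w.1 L i else if L = N ∧ i = n then b else false

/-- Adding a single one to a finite word -/
theorem add_one (w : X) (m N n : ℕ) (hmn : m ≤ n)
    (h : ∀ a, c w.1 N a = true → N + a < m → ¬ Q N (n - a)) :
    ∃ z ∈ Cyl w m, ∃ z' ∈ Cyl w m, c (T^[n] z).1 N 0 ≠ c (T^[n] z').1 N 0 := by
  have hz : ∀ b : Bool, mk (addw w m N n b) ∈ Adm := by
    intro b L i j hij h1 h2
    rw [c_mk, addw] at h1 h2
    by_cases hi : L + i < m
    · rw [if_pos hi] at h1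
      by_cases hj : L + j < m
      · rw [if_pos hj] at h2
        exact w.2 L i j hij h1 h2
      · rw [if_neg hj] at h2
        split_ifs at h2 with hj'
        · obtain ⟨rfl, rfl⟩ := hj'
          exact h i h1 hi
    · rw [if_neg hi] at h1
      rw [if_neg (by omega)] at h2
      split_ifs at h1 h2 with hi' hj'
      · omega
  have hc : ∀ b : Bool, (⟨_, hz b⟩ : X) ∈ Cyl w m := by
    intro b L i hLi
    change c (mk (addw w m N n b)) L i = _
    rw [c_mk, addw, if_pos hLi]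
  refine ⟨⟨_, hz true⟩, hc true, ⟨_, hz false⟩, hc false, ?_⟩
  rw [c_T, c_T]
  change c (mk (addw w m N n true)) N (0 + n) ≠ c (mk (addw w m N n false)) N (0 + n)
  have hn : ¬ (N + (0 + n) < m) := by omega
  rw [c_mk, c_mk, addw, addw, if_neg hn, if_neg hn]
  simp

theorem T_thick : ThicklySensitive T := by
  refine ⟨1 / 2, by norm_num, ?_⟩
  rintro U ⟨hU, ⟨w, hw⟩⟩ l
  obtain ⟨m, hm⟩ := exists_Cyl hU hw
  obtain ⟨n, hn, hgap⟩ := exists_gap (m + l)
  refine ⟨n, fun i hi => ?_⟩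
  obtain ⟨z, hz, z', hz', hne⟩ := add_one w m 0 (n + i) (by omega)
    (fun a _ ha => hgap 0 _ (by omega) (by omega))
  refine ⟨z, hm hz, z', hm hz', ?_⟩
  rw [dist_gt_iff (N := 0) (by norm_num) (by norm_num)]
  exact ⟨0, 0, le_rfl, hne⟩

/-- `x_{L,k} = 1` for `L ≤ N` -/
def UU (N k : ℕ) : Set X := {x | ∀ L, L ≤ N → c x.1 L k = true}

theorem UU_open (N k : ℕ) : IsOpen (UU N k) := by
  have : UU N k = ⋂ L ∈ Finset.range (N + 1), {x : X | c x.1 L k = true} := by
    ext x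
    simp only [UU, mem_ofPred_eq, mem_iInter, Finset.mem_range, Nat.lt_succ_iff]
  rw [this]
  exact isOpen_biInter_finset fun L _ => isOpen_c L k true

theorem UU_nonempty (N k : ℕ) : (UU N k).Nonempty := by
  refine ⟨⟨mk fun L i => decide (i = k), ?_⟩, ?_⟩
  · intro L i j hij h1 h2
    rw [c_mk] at h1 h2
    simp at h1 h2
    omega
  · intro L _
    rw [c_mk]; simp

theorem exists_N {δ : ℝ} (hδ : 0 < δ) (hδ1 : δ < 1) :
    ∃ N : ℕ, (1 / 2 : ℝ) ^ (N + 1) ≤ δ ∧ δ < (1 / 2 : ℝ) ^ N := by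
  have h : ∃ n : ℕ, (1 / 2 : ℝ) ^ n ≤ δ := by
    obtain ⟨m, hm⟩ := exists_pow_lt_of_lt_one hδ (show (1 / 2 : ℝ) < 1 by norm_num)
    exact ⟨m, hm.le⟩
  have h0 : Nat.find h ≠ 0 := by
    intro h0
    have := Nat.find_spec h
    rw [h0, pow_zero] at this
    linarith
  obtain ⟨N, hN⟩ := Nat.exists_eq_succ_of_ne_zero h0
  refine ⟨N, ?_, ?_⟩
  · have := Nat.find_spec h
    rwa [hN] at this
  · have := Nat.find_min h (m := N) (by omega)
    exact not_le.1 this

theorem S_ne {δ : ℝ} (N : ℕ) (h1 : (1 / 2 : ℝ) ^ (N + 1) ≤ δ) (h2 : δ < (1 / 2 : ℝ) ^ N) (j : ℕ)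
    (hj : τ j = N) (k : ℕ) : 4 ^ (j + 2) + k ∉ ST T (UU N k) δ := by
  rintro ⟨x, hx, y, hy, hxy⟩
  rw [dist_gt_iff h1 h2] at hxy
  obtain ⟨L, i, hLi, hne⟩ := hxy
  have hpos : 0 < 4 ^ (j + 2) := by positivity
  have key : ∀ x ∈ UU N k, c (T^[4 ^ (j + 2) + k] x).1 L i = false := by
    intro x hx
    rw [c_T]
    by_contra hcon
    rw [Bool.not_eq_false] at hcon
    refine x.2 L k (i + (4 ^ (j + 2) + k)) (by omega) (hx L (by omega)) hcon ?_
    exact Or.inr ⟨j, i, by omega, by omega, by omega⟩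
  exact hne ((key x hx).trans (key y hy).symm)

theorem T_not_fs : ¬ FilterSensitive T := by
  rintro ⟨δ, hδ, ⟨-, hproper⟩, hfil⟩
  rcases lt_or_ge δ 1 with hδ1 | hδ1
  · obtain ⟨N, hN1, hN2⟩ := exists_N hδ hδ1
    have hU := hfil _ ⟨UU N 0, ⟨UU_open N 0, UU_nonempty N 0⟩, Subset.rfl⟩ _
      ⟨UU N 1, ⟨UU_open N 1, UU_nonempty N 1⟩, Subset.rfl⟩
    obtain ⟨W, ⟨hW, ⟨w, hw⟩⟩, hWs⟩ := hU
    obtain ⟨m, hm⟩ := exists_Cyl hW hw
    obtain ⟨j, hj, hτ⟩ := exists_type N (m + 2)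
    have hj4 := lt_four j
    have e2 : 4 ^ (j + 2) = 16 * 4 ^ j := by ring
    have hne := S_ne N hN1 hN2 j hτ
    by_cases h0 : c w.1 N 0 = true ∧ N + 0 < m
    · -- the second set
      have h1 : c w.1 N 1 = false := by
        by_contra hcon
        rw [Bool.not_eq_false] at hcon
        exact w.2 N 0 1 (by omega) h0.1 hcon (Or.inl rfl)
      obtain ⟨z, hz, z', hz', hzz⟩ := add_one w m N (4 ^ (j + 2) + 1) (by omega) (by
        intro a ha ham
        rcases Nat.lt_or_ge a 2 with h2 | h2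
        · interval_cases a
          · rw [← hτ]; exact not_Q_above
          · rw [h1] at ha; simp at ha
        · exact not_Q_below (j := j) (by omega) (by omega))
      have h3 : 4 ^ (j + 2) + 1 ∈ ST T W δ :=
        ⟨z, hm hz, z', hm hz', (dist_gt_iff hN1 hN2 _ _).2 ⟨N, 0, by omega, hzz⟩⟩
      exact hne 1 (hWs h3).2
    · obtain ⟨z, hz, z', hz', hzz⟩ := add_one w m N (4 ^ (j + 2)) (by omega) (by
        intro a ha ham
        have ha0 : a ≠ 0 := by
          rintro rfl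
          exact h0 ⟨ha, ham⟩
        exact not_Q_below (j := j) (by omega) (by omega))
      have h3 : 4 ^ (j + 2) ∈ ST T W δ :=
        ⟨z, hm hz, z', hm hz', (dist_gt_iff hN1 hN2 _ _).2 ⟨N, 0, by omega, hzz⟩⟩
      exact hne 0 (hWs h3).1
  · apply hproper
    rw [eq_univ_iff_forall]
    intro A
    refine ⟨univ, ⟨isOpen_univ, ⟨(UU_nonempty 0 0).some, trivial⟩⟩, ?_⟩
    rintro n ⟨x, -, y, -, hxy⟩
    have h1 : dist (T^[n] x) (T^[n] y) ≤ 1 := PiNat.dist_le_one _ _
    linarith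

end Q67.FS
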